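import Pool.Agent.Y112.NF.Ring
import Pool.Agent.TH137.DG.Idem
import Pool.Agent.TH137.DG.Rep

/-!
# A finitely presented algebra over an arbitrary field with many idempotents

The algebra has five generators `S, T, a, b, p` and eleven relations, with integral
coefficients.  With `s = bS - Sb`, `t = Ta - aT` and `π = 1 - ab - st` the elements
`g_n = p sⁿ π tⁿ` are idempotents, and for each `m` there is a finite dimensional module `V_m` on
which `g_m` is an idempotent of rank one and on which the other `g_n` are zero.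
-/

set_option autoImplicit false

namespace Pool.Agent.Y112.NF

open Pool.Agent.TH137.DG

section ring

variable {H : Type} [Ring H] (S T a b p : H)

/-- the element `s` -/
def sR : H := b * S - S * b

/-- the element `t` -/
def tR : H := T * a - a * T

/-- the element `π` -/
def πR : H := 1 - a * b - sR S b * tR T a

/-- the relations -/
def relR : Fin 11 → H :=
  ![p * p - p, p * a - a * p, p * b - b * p, b * T - T * b, a * S - S * a,
    a * πR S T a b, b * πR S T a b, b * sR S b, T - T * (a * b),
    a * T - a * (T * (b * a)), πR S T a b * b]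

/-- the idempotents -/
def gR (n : ℕ) : H := p * sR S b ^ n * πR S T a b * tR T a ^ n

lemma gR_idem (h : ∀ i, relR S T a b p i = 0) (n : ℕ) :
    gR S T a b p n * gR S T a b p n - gR S T a b p n = 0 :=
  sub_eq_zero.2 (idem_ring rfl rfl rfl (sub_eq_zero.1 (h 0)) (sub_eq_zero.1 (h 1))
    (sub_eq_zero.1 (h 2)) (sub_eq_zero.1 (h 3)) (sub_eq_zero.1 (h 4)) (h 5) (h 6) (h 7)
    (sub_eq_zero.1 (h 8)) (sub_eq_zero.1 (h 9)) (h 10) n)

variable {S T a b p} {H' : Type} [Ring H'] (f : H →+* H')

lemma map_sR : f (sR S b) = sR (f S) (f b) := by simp [sR]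

lemma map_tR : f (tR T a) = tR (f T) (f a) := by simp [tR]

lemma map_πR : f (πR S T a b) = πR (f S) (f T) (f a) (f b) := by simp [πR, map_sR, map_tR]

lemma map_gR (n : ℕ) : f (gR S T a b p n) = gR (f S) (f T) (f a) (f b) (f p) n := by
  simp [gR, map_sR, map_tR, map_πR]

lemma map_relR (i : Fin 11) : f (relR S T a b p i) = relR (f S) (f T) (f a) (f b) (f p) i := by
  have hs := map_sR (S := S) (b := b) f
  have ht := map_πR (S := S) (T := T) (a := a) (b := b) f
  fin_cases i
  · change f (p * p - p) = f p * f p - f p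
    simp
  · change f (p * a - a * p) = f p * f a - f a * f p
    simp
  · change f (p * b - b * p) = f p * f b - f b * f p
    simp
  · change f (b * T - T * b) = f b * f T - f T * f b
    simp
  · change f (a * S - S * a) = f a * f S - f S * f a
    simp
  · change f (a * πR S T a b) = f a * πR (f S) (f T) (f a) (f b)
    rw [map_mul, ht]
  · change f (b * πR S T a b) = f b * πR (f S) (f T) (f a) (f b)
    rw [map_mul, ht]
  · change f (b * sR S b) = f b * sR (f S) (f b)
    rw [map_mul, hs]
  · change f (T - T * (a * b)) = f T - f T * (f a * f b)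
    simp
  · change f (a * T - a * (T * (b * a))) = f a * f T - f a * (f T * (f b * f a))
    simp
  · change f (πR S T a b * b) = πR (f S) (f T) (f a) (f b) * f b
    rw [map_mul, ht]

end ring

/-! ### the relations -/

section rel

variable (k : Type) [Field k]

/-- the relations -/
noncomputable def rel : Fin 11 → FA k (Fin 5) :=
  relR (gen k 0) (gen k 1) (gen k 2) (gen k 3) (gen k 4)

/-- the idempotents -/
noncomputable def gi (n : ℕ) : FA k (Fin 5) :=
  gR (gen k 0) (gen k 1) (gen k 2) (gen k 3) (gen k 4) n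

lemma gi_idem (n : ℕ) : ∃ z, (stage (rel k)).cx.d z =
    ι₀ k (Fin 5) (Fin 11) (gi k n * gi k n - gi k n) := by
  have h : ((gi k n * gi k n : FA k (Fin 5)) : (hcon (rel k)).Quotient) =
      ((gi k n : FA k (Fin 5)) : (hcon (rel k)).Quotient) := by
    have h1 : ∀ i, relR ((hcon (rel k)).mk' (gen k 0)) ((hcon (rel k)).mk' (gen k 1))
        ((hcon (rel k)).mk' (gen k 2)) ((hcon (rel k)).mk' (gen k 3))
        ((hcon (rel k)).mk' (gen k 4)) i = 0 := by
      intro i
      rw [← map_relR]
      exact hcon_gen (rel k) i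
    have h2 := gR_idem _ _ _ _ _ h1 n
    rw [← map_gR, ← map_mul] at h2
    exact sub_eq_zero.1 h2
  exact hcon_eq (rel k) h

end rel

/-! ### the representations -/

section reps

/-- the index set of the basis -/
abbrev Ix (m : ℕ) : Type := {x : ℕ × ℕ // x.1 + x.2 ≤ m}

/-- the inclusion of the index set in a square -/
def sq (m : ℕ) (x : Ix m) : Fin (m + 1) × Fin (m + 1) :=
  (⟨x.1.1, by have := x.2; omega⟩, ⟨x.1.2, by have := x.2; omega⟩)

lemma sq_inj (m : ℕ) : Function.Injective (sq m) := by
  rintro ⟨⟨u, i⟩, h⟩ ⟨⟨u', i'⟩, h'⟩ e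
  simp only [sq, Prod.mk.injEq, Fin.mk.injEq] at e
  obtain ⟨rfl, rfl⟩ := e
  rfl

noncomputable instance (m : ℕ) : Fintype (Ix m) := Fintype.ofInjective (sq m) (sq_inj m)

variable {k : Type} [Field k] {m : ℕ}

/-- the coordinates, extended by zero -/
def co (v : Ix m → k) (u i : ℕ) : k := if h : u + i ≤ m then v ⟨(u, i), h⟩ else 0

lemma co_of_le (v : Ix m → k) {u i : ℕ} (h : u + i ≤ m) : co v u i = v ⟨(u, i), h⟩ := dif_pos h

lemma co_out (v : Ix m → k) {u i : ℕ} (h : m < u + i) : co v u i = 0 := dif_neg (by omega)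

lemma co_add (v w : Ix m → k) (u i : ℕ) : co (v + w) u i = co v u i + co w u i := by
  unfold co; split <;> simp

lemma co_sub (v w : Ix m → k) (u i : ℕ) : co (v - w) u i = co v u i - co w u i := by
  unfold co; split <;> simp

lemma co_zero (u i : ℕ) : co (0 : Ix m → k) u i = 0 := by
  unfold co; split <;> simp

lemma co_smul (c : k) (v : Ix m → k) (u i : ℕ) : co (c • v) u i = c * co v u i := by
  unfold co; split <;> simp

lemma co_ext {v w : Ix m → k} (h : ∀ u i, u + i ≤ m → co v u i = co w u i) : v = w := by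
  ext ⟨⟨u, i⟩, hx⟩
  have := h u i hx
  rwa [co_of_le v hx, co_of_le w hx] at this

/-- the operator given by an operator on all functions -/
def op (F : (ℕ → ℕ → k) →ₗ[k] (ℕ → ℕ → k)) : Module.End k (Ix m → k) where
  toFun v := fun x => F (co v) x.1.1 x.1.2
  map_add' v w := by
    have : co (v + w) = co v + co w := by
      funext u i; exact co_add v w u i
    ext x
    rw [this, map_add]; rfl
  map_smul' c v := by
    have : co (c • v) = c • co v := by
      funext u i; exact co_smul c v u i
    ext x
    rw [this, map_smul]; rfl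

lemma co_op (F : (ℕ → ℕ → k) →ₗ[k] (ℕ → ℕ → k)) (v : Ix m → k) {u i : ℕ} (h : u + i ≤ m) :
    co (op F v) u i = F (co v) u i := by
  rw [co_of_le _ h]; rfl

/-- the first raising operator -/
def fS : (ℕ → ℕ → k) →ₗ[k] (ℕ → ℕ → k) where
  toFun f := fun u i => if i = 0 then 0 else f u (i - 1)
  map_add' f g := by funext u i; by_cases h : i = 0 <;> simp [h]
  map_smul' c f := by funext u i; by_cases h : i = 0 <;> simp [h]

/-- the first lowering operator -/
def fT : (ℕ → ℕ → k) →ₗ[k] (ℕ → ℕ → k) where
  toFun f := fun u i => f u (i + 1)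
  map_add' _ _ := rfl
  map_smul' _ _ := rfl

/-- the second raising operator -/
def fa : (ℕ → ℕ → k) →ₗ[k] (ℕ → ℕ → k) where
  toFun f := fun u i => if i = 0 then 0 else f (u + 1) (i - 1)
  map_add' f g := by funext u i; by_cases h : i = 0 <;> simp [h]
  map_smul' c f := by funext u i; by_cases h : i = 0 <;> simp [h]

/-- the second lowering operator -/
def fb : (ℕ → ℕ → k) →ₗ[k] (ℕ → ℕ → k) where
  toFun f := fun u i => if u = 0 then 0 else f (u - 1) (i + 1)
  map_add' f g := by funext u i; by_cases h : u = 0 <;> simp [h]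
  map_smul' c f := by funext u i; by_cases h : u = 0 <;> simp [h]

/-- the projection -/
def fp (m : ℕ) : (ℕ → ℕ → k) →ₗ[k] (ℕ → ℕ → k) where
  toFun f := fun u i => if u + i = m then f u i else 0
  map_add' f g := by funext u i; by_cases h : u + i = m <;> simp [h]
  map_smul' c f := by funext u i; by_cases h : u + i = m <;> simp [h]

variable (k m) in
/-- the operator `S` -/
def opS : Module.End k (Ix m → k) := op fS

variable (k m) in
/-- the operator `T` -/
def opT : Module.End k (Ix m → k) := op fT

variable (k m) in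
/-- the operator `a` -/
def opa : Module.End k (Ix m → k) := op fa

variable (k m) in
/-- the operator `b` -/
def opb : Module.End k (Ix m → k) := op fb

variable (k m) in
/-- the operator `p` -/
def opp : Module.End k (Ix m → k) := op (fp m)

lemma co_S_zero (v : Ix m → k) (u : ℕ) : co (opS k m v) u 0 = 0 := by
  by_cases h : u + 0 ≤ m
  · exact co_op fS v h
  · exact co_out _ (by omega)

lemma co_S_succ (v : Ix m → k) (u i : ℕ) :
    co (opS k m v) u (i + 1) = if u + i + 1 ≤ m then co v u i else 0 := by
  by_cases h : u + (i + 1) ≤ m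
  · rw [if_pos (by omega)]
    exact co_op fS v h
  · rw [if_neg (by omega)]
    exact co_out _ (by omega)

lemma co_T (v : Ix m → k) (u i : ℕ) : co (opT k m v) u i = co v u (i + 1) := by
  by_cases h : u + i ≤ m
  · exact co_op fT v h
  · rw [co_out _ (by omega), co_out _ (by omega)]

lemma co_a_zero (v : Ix m → k) (u : ℕ) : co (opa k m v) u 0 = 0 := by
  by_cases h : u + 0 ≤ m
  · exact co_op fa v h
  · exact co_out _ (by omega)

lemma co_a_succ (v : Ix m → k) (u i : ℕ) : co (opa k m v) u (i + 1) = co v (u + 1) i := by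
  by_cases h : u + (i + 1) ≤ m
  · exact co_op fa v h
  · rw [co_out _ (by omega), co_out _ (by omega)]

lemma co_b_zero (v : Ix m → k) (i : ℕ) : co (opb k m v) 0 i = 0 := by
  by_cases h : 0 + i ≤ m
  · exact co_op fb v h
  · exact co_out _ (by omega)

lemma co_b_succ (v : Ix m → k) (u i : ℕ) : co (opb k m v) (u + 1) i = co v u (i + 1) := by
  by_cases h : u + 1 + i ≤ m
  · exact co_op fb v h
  · rw [co_out _ (by omega), co_out _ (by omega)]

lemma co_p (v : Ix m → k) (u i : ℕ) :
    co (opp k m v) u i = if u + i = m then co v u i else 0 := by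
  by_cases h : u + i ≤ m
  · exact co_op (fp m) v h
  · rw [co_out _ (by omega), if_neg (by omega)]

variable (k m) in
/-- the operator `s` -/
abbrev ops : Module.End k (Ix m → k) := sR (opS k m) (opb k m)

variable (k m) in
/-- the operator `t` -/
abbrev opt : Module.End k (Ix m → k) := tR (opT k m) (opa k m)

variable (k m) in
/-- the operator `π` -/
abbrev opπ : Module.End k (Ix m → k) := πR (opS k m) (opT k m) (opa k m) (opb k m)

lemma ops_apply (v : Ix m → k) : ops k m v = opb k m (opS k m v) - opS k m (opb k m v) := rfl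

lemma opt_apply (v : Ix m → k) : opt k m v = opT k m (opa k m v) - opa k m (opT k m v) := rfl

lemma opπ_apply (v : Ix m → k) :
    opπ k m v = v - opa k m (opb k m v) - ops k m (opt k m v) := rfl

lemma co_s_zero (v : Ix m → k) (i : ℕ) : co (ops k m v) 0 i = 0 := by
  rw [ops_apply, co_sub, co_b_zero]
  cases i with
  | zero => rw [co_S_zero, sub_zero]
  | succ i => rw [co_S_succ, co_b_zero, ite_self, sub_zero]

lemma co_s_succ_zero (v : Ix m → k) (u : ℕ) :
    co (ops k m v) (u + 1) 0 = if u + 1 ≤ m then co v u 0 else 0 := by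
  rw [ops_apply, co_sub, co_b_succ, co_S_succ, co_S_zero, sub_zero, add_zero]

lemma co_s_succ (v : Ix m → k) (u i : ℕ) : co (ops k m v) u (i + 1) = 0 := by
  cases u with
  | zero => exact co_s_zero v _
  | succ u =>
    rw [ops_apply, co_sub, co_b_succ, co_S_succ, co_S_succ, co_b_succ]
    by_cases h : u + 1 + i + 1 ≤ m
    · rw [if_pos h, if_pos (by omega), sub_self]
    · rw [if_neg h, if_neg (by omega), sub_self]

lemma co_t_zero (v : Ix m → k) (u : ℕ) : co (opt k m v) u 0 = co v (u + 1) 0 := by
  rw [opt_apply, co_sub, co_T, co_a_succ, co_a_zero, sub_zero]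

lemma co_t_succ (v : Ix m → k) (u i : ℕ) : co (opt k m v) u (i + 1) = 0 := by
  rw [opt_apply, co_sub, co_T, co_a_succ, co_a_succ, co_T, sub_self]

lemma co_π_zero_zero (v : Ix m → k) : co (opπ k m v) 0 0 = co v 0 0 := by
  rw [opπ_apply, co_sub, co_sub, co_a_zero, co_s_zero, sub_zero, sub_zero]

lemma co_π_succ_zero (v : Ix m → k) (u : ℕ) : co (opπ k m v) (u + 1) 0 = 0 := by
  rw [opπ_apply, co_sub, co_sub, co_a_zero, sub_zero, co_s_succ_zero, co_t_zero]
  by_cases h : u + 1 ≤ m
  · rw [if_pos h, sub_self]
  · rw [if_neg h, sub_zero]; exact co_out _ (by omega)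

lemma co_π_succ (v : Ix m → k) (u i : ℕ) : co (opπ k m v) u (i + 1) = 0 := by
  rw [opπ_apply, co_sub, co_sub, co_a_succ, co_b_succ, co_s_succ, sub_self, sub_zero]

lemma co_π (v : Ix m → k) (u i : ℕ) (h : u ≠ 0 ∨ i ≠ 0) : co (opπ k m v) u i = 0 := by
  cases i with
  | zero =>
    cases u with
    | zero => omega
    | succ u => exact co_π_succ_zero v u
  | succ i => exact co_π_succ v u i

lemma op_eq_zero {f : Module.End k (Ix m → k)} (h : ∀ v u i, u + i ≤ m → co (f v) u i = 0) :
    f = 0 := by
  apply LinearMap.ext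
  intro v
  apply co_ext
  intro u i hui
  rw [h v u i hui]
  exact (co_zero u i).symm

variable (k m) in
lemma relR_op (i : Fin 11) :
    relR (opS k m) (opT k m) (opa k m) (opb k m) (opp k m) i = 0 := by
  fin_cases i
  · change opp k m * opp k m - opp k m = 0
    apply op_eq_zero
    intro v u i _
    change co (opp k m (opp k m v) - opp k m v) u i = 0
    rw [co_sub, co_p, co_p]
    by_cases h : u + i = m
    · rw [if_pos h, if_pos h, sub_self]
    · rw [if_neg h, if_neg h, sub_self]
  · change opp k m * opa k m - opa k m * opp k m = 0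
    apply op_eq_zero
    intro v u i _
    change co (opp k m (opa k m v) - opa k m (opp k m v)) u i = 0
    rw [co_sub, co_p]
    cases i with
    | zero => rw [co_a_zero, co_a_zero, ite_self, sub_zero]
    | succ i =>
      rw [co_a_succ, co_a_succ, co_p]
      by_cases h : u + 1 + i = m
      · rw [if_pos h, if_pos (by omega), sub_self]
      · rw [if_neg h, if_neg (by omega), sub_self]
  · change opp k m * opb k m - opb k m * opp k m = 0
    apply op_eq_zero
    intro v u i _
    change co (opp k m (opb k m v) - opb k m (opp k m v)) u i = 0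
    rw [co_sub, co_p]
    cases u with
    | zero => rw [co_b_zero, co_b_zero, ite_self, sub_zero]
    | succ u =>
      rw [co_b_succ, co_b_succ, co_p]
      by_cases h : u + 1 + i = m
      · rw [if_pos h, if_pos (by omega), sub_self]
      · rw [if_neg h, if_neg (by omega), sub_self]
  · change opb k m * opT k m - opT k m * opb k m = 0
    apply op_eq_zero
    intro v u i _
    change co (opb k m (opT k m v) - opT k m (opb k m v)) u i = 0
    rw [co_sub, co_T]
    cases u with
    | zero => rw [co_b_zero, co_b_zero, sub_zero]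
    | succ u => rw [co_b_succ, co_b_succ, co_T, sub_self]
  · change opa k m * opS k m - opS k m * opa k m = 0
    apply op_eq_zero
    intro v u i _
    change co (opa k m (opS k m v) - opS k m (opa k m v)) u i = 0
    rw [co_sub]
    cases i with
    | zero => rw [co_a_zero, co_S_zero, sub_zero]
    | succ i =>
      rw [co_a_succ, co_S_succ]
      cases i with
      | zero => rw [co_S_zero, co_a_zero, ite_self, sub_zero]
      | succ i =>
        rw [co_S_succ, co_a_succ]
        by_cases h : u + 1 + i + 1 ≤ m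
        · rw [if_pos h, if_pos (by omega), sub_self]
        · rw [if_neg h, if_neg (by omega), sub_self]
  · change opa k m * opπ k m = 0
    apply op_eq_zero
    intro v u i _
    change co (opa k m (opπ k m v)) u i = 0
    cases i with
    | zero => rw [co_a_zero]
    | succ i => rw [co_a_succ, co_π _ _ _ (by omega)]
  · change opb k m * opπ k m = 0
    apply op_eq_zero
    intro v u i _
    change co (opb k m (opπ k m v)) u i = 0
    cases u with
    | zero => rw [co_b_zero]
    | succ u => rw [co_b_succ, co_π _ _ _ (by omega)]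
  · change opb k m * ops k m = 0
    apply op_eq_zero
    intro v u i _
    change co (opb k m (ops k m v)) u i = 0
    cases u with
    | zero => rw [co_b_zero]
    | succ u => rw [co_b_succ, co_s_succ]
  · change opT k m - opT k m * (opa k m * opb k m) = 0
    apply op_eq_zero
    intro v u i _
    change co (opT k m v - opT k m (opa k m (opb k m v))) u i = 0
    rw [co_sub, co_T, co_T, co_a_succ, co_b_succ, sub_self]
  · change opa k m * opT k m - opa k m * (opT k m * (opb k m * opa k m)) = 0
    apply op_eq_zero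
    intro v u i _
    change co (opa k m (opT k m v) - opa k m (opT k m (opb k m (opa k m v)))) u i = 0
    rw [co_sub]
    cases i with
    | zero => rw [co_a_zero, co_a_zero, sub_zero]
    | succ i =>
      rw [co_a_succ, co_a_succ, co_T, co_T, co_b_succ, co_a_succ, sub_self]
  · change opπ k m * opb k m = 0
    apply op_eq_zero
    intro v u i _
    change co (opπ k m (opb k m v)) u i = 0
    by_cases h : u ≠ 0 ∨ i ≠ 0
    · exact co_π _ _ _ h
    · push Not at h
      obtain ⟨rfl, rfl⟩ := h
      rw [co_π_zero_zero, co_b_zero]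

lemma co_t_pow (v : Ix m → k) (n u : ℕ) :
    co ((opt k m ^ n) v) u 0 = co v (u + n) 0 := by
  induction n generalizing u with
  | zero => simp
  | succ n ih =>
    rw [pow_succ', Module.End.mul_apply, co_t_zero, ih]; congr 1; omega

lemma co_s_pow (v : Ix m → k) (hv : ∀ u i, i ≠ 0 → co v u i = 0) (n u i : ℕ) (h : u + i ≤ m) :
    co ((ops k m ^ n) v) u i = if n ≤ u ∧ i = 0 then co v (u - n) 0 else 0 := by
  induction n generalizing u i with
  | zero =>
    by_cases hi : i = 0
    · subst hi; simp
    · rw [if_neg (by tauto)]; simpa using hv u i hi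
  | succ n ih =>
    rw [pow_succ', Module.End.mul_apply]
    cases i with
    | succ i => rw [co_s_succ, if_neg (by omega)]
    | zero =>
      cases u with
      | zero => rw [co_s_zero, if_neg (by omega)]
      | succ u =>
        rw [co_s_succ_zero, if_pos (by omega), ih u 0 (by omega)]
        by_cases h1 : n ≤ u
        · rw [if_pos ⟨h1, rfl⟩, if_pos ⟨by omega, rfl⟩]; congr 1; omega
        · rw [if_neg (by omega), if_neg (by omega)]

variable (k m)

/-- the operators -/
def opsAll : Fin 5 → Module.End k (Ix m → k) :=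
  ![opS k m, opT k m, opa k m, opb k m, opp k m]

/-- the representation -/
noncomputable def repΦ : FA k (Fin 5) →ₐ[k] Module.End k (Ix m → k) :=
  MonoidAlgebra.lift k (Module.End k (Ix m → k)) (FreeMonoid (Fin 5))
    (FreeMonoid.lift (opsAll k m))

lemma repΦ_gen (i : Fin 5) : repΦ k m (gen k i) = opsAll k m i := by
  rw [gen, wd, repΦ, MonoidAlgebra.lift_single, one_smul]
  exact FreeMonoid.lift_eval_of _ _

lemma repΦ_rel (i : Fin 11) : repΦ k m (rel k i) = 0 := by
  have h := map_relR (S := gen k (0 : Fin 5)) (T := gen k 1) (a := gen k 2) (b := gen k 3)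
    (p := gen k 4) (repΦ k m).toRingHom i
  refine h.trans ?_
  change relR (repΦ k m (gen k 0)) (repΦ k m (gen k 1)) (repΦ k m (gen k 2))
    (repΦ k m (gen k 3)) (repΦ k m (gen k 4)) i = 0
  rw [repΦ_gen, repΦ_gen, repΦ_gen, repΦ_gen, repΦ_gen]
  exact relR_op k m i

lemma repΦ_gi (n : ℕ) (v : Ix m → k) : repΦ k m (gi k n) v =
    opp k m ((ops k m ^ n) (opπ k m ((opt k m ^ n) v))) := by
  have h := map_gR (S := gen k (0 : Fin 5)) (T := gen k 1) (a := gen k 2) (b := gen k 3)
    (p := gen k 4) (repΦ k m).toRingHom n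
  have h' : repΦ k m (gi k n) = gR (opS k m) (opT k m) (opa k m) (opb k m) (opp k m) n := by
    refine h.trans ?_
    change gR (repΦ k m (gen k 0)) (repΦ k m (gen k 1)) (repΦ k m (gen k 2))
      (repΦ k m (gen k 3)) (repΦ k m (gen k 4)) n = _
    rw [repΦ_gen, repΦ_gen, repΦ_gen, repΦ_gen, repΦ_gen]; rfl
  rw [h']; rfl

lemma co_repΦ_gi (n : ℕ) (v : Ix m → k) {u i : ℕ} (hj : u + i ≤ m) :
    co (repΦ k m (gi k n) v) u i = if u = m ∧ i = 0 ∧ n = m then co v m 0 else 0 := by
  rw [repΦ_gi, co_p, co_s_pow _ (fun u i hi => co_π _ _ _ (Or.inr hi)) _ _ _ hj]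
  by_cases h1 : u = m ∧ i = 0 ∧ n = m
  · obtain ⟨rfl, rfl, rfl⟩ := h1
    rw [if_pos (add_zero _), if_pos ⟨le_rfl, rfl⟩, if_pos ⟨rfl, rfl, rfl⟩, Nat.sub_self,
      co_π_zero_zero, co_t_pow, zero_add]
  · rw [if_neg h1]
    by_cases h2 : u + i = m
    · rw [if_pos h2]
      by_cases h3 : n ≤ u ∧ i = 0
      · rw [if_pos h3, co_π]
        left
        omega
      · rw [if_neg h3]
    · rw [if_neg h2]

lemma repΦ_gi_ne {n : ℕ} (h : n ≠ m) : repΦ k m (gi k n) = 0 := by
  apply op_eq_zero
  intro v u i hui
  rw [co_repΦ_gi k m n v hui, if_neg (by tauto)]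

/-- the last index -/
def top (m : ℕ) : Ix m := ⟨(m, 0), le_rfl⟩

lemma repΦ_gi_eq (v : Ix m → k) : repΦ k m (gi k m) v =
    (LinearMap.proj (top m) : (Ix m → k) →ₗ[k] k) v • (Pi.single (top m) (1 : k) : Ix m → k) := by
  apply co_ext
  intro u i hui
  rw [co_repΦ_gi k m m v hui, co_smul, co_of_le v (show m + 0 ≤ m from le_rfl), co_of_le _ hui]
  by_cases h : u = m ∧ i = 0
  · obtain ⟨rfl, rfl⟩ := h
    have e : (Pi.single (top u) (1 : k) : Ix u → k) ⟨(u, 0), hui⟩ = 1 :=
      Pi.single_eq_same (M := fun _ : Ix u => k) (top u) 1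
    rw [if_pos ⟨rfl, rfl, rfl⟩, e, mul_one]; rfl
  · rw [if_neg (by tauto), Pi.single_eq_of_ne, mul_zero]
    intro h'
    apply h
    have := congrArg Subtype.val h'
    simpa [top] using this

end reps

end Pool.Agent.Y112.NF
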