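import Pool.Agent.Y112.NF.Idem
import Pool.Agent.TH137.DG.Conv

/-!
# The dg algebra over an arbitrary field and its Morita invariants
-/

set_option autoImplicit false

open CategoryTheory MonoidalCategory Limits

namespace Pool.Agent.Y112.NF

open Pool.Agent.TH137.DG hiding rel gi gi_idem repΦ repΦ_rel repΦ_gi_ne repΦ_gi_eq XA EI EI_g
  objP PP toP toP_morita gn_P GG GP DD FF GG_none GG_g GG_uv GG_vu GG_u_z0 GG_v_z0 ext0_g off
  diag_hEq K_gn_GG hd ho co opS opT ops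

universe v u

section gen

variable {k : Type} [Field k] {X₀ X₁ : Type} (ρ : X₁ → FA k X₀) {ι : Type} [Fintype ι]
  [DecidableEq ι]
variable (Φ : FA k X₀ →ₐ[k] Module.End k (ι → k))
variable (hΦ : ∀ y, Φ (ρ y) = 0)

/-- the value of the represented functor at the algebra is generated by `k` -/
lemma gn_Wc' : (Ch.{0} k).Gn (cob (Kc k)) (cob (Wc ρ Φ hΦ)) := by
  let E := Fintype.equivFin ι
  refine ⟨Fintype.card ι, fun i => pF ρ Φ hΦ (LinearMap.proj (E.symm i)),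
    fun i => qF ρ Φ hΦ (Pi.single (E.symm i) 1),
    fun i => pF_z0 _ _ _ _, fun i => qF_z0 _ _ _ _, ?_⟩
  have e : (Ch.{0} k).one (cob (Wc ρ Φ hΦ)) -
      ∑ i, (Ch.{0} k).mul (qF ρ Φ hΦ (Pi.single (E.symm i) 1))
        (pF ρ Φ hΦ (LinearMap.proj (E.symm i))) = 0 := by
    rw [sub_eq_zero]
    apply cfn_inj
    rw [map_sum, cfn_one]
    apply LinearMap.ext
    intro φ
    rw [LinearMap.sum_apply, LinearMap.id_apply]
    have e3 : ∀ i, cfn ((Ch.{0} k).mul (qF ρ Φ hΦ (Pi.single (E.symm i) 1))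
      (pF ρ Φ hΦ (LinearMap.proj (E.symm i)))) φ =
      cv ρ Φ hΦ ((ev ρ Φ hΦ φ) (E.symm i) • Pi.single (E.symm i) 1) := fun i => rfl
    rw [Finset.sum_congr rfl fun i _ => e3 i]
    refine Eq.trans ?_ (map_sum (cv ρ Φ hΦ)
      (fun i => (ev ρ Φ hΦ φ) (E.symm i) • Pi.single (E.symm i) 1) _)
    have e4 : ∑ i, (ev ρ Φ hΦ φ) (E.symm i) • (Pi.single (E.symm i) 1 : ι → k) =
        ev ρ Φ hΦ φ := by
      rw [E.symm.sum_comp (fun i => (ev ρ Φ hΦ φ) i • (Pi.single i 1 : ι → k))]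
      ext j
      simp [Finset.sum_apply, Pi.single_apply]
    rw [e4, cv_ev]
  rw [e]; exact DGCat.Ex.zero

end gen

section

variable (k : Type) [Field k]

/-- the dg algebra -/
noncomputable abbrev XA : DGAlg k (FA k (Fin 5 ⊕ Fin 11)) := stage (rel k)

/-- the homotopy idempotents -/
noncomputable def EI (n : ℕ) : HIdem (XA k) :=
  (exists_hIdem (XA k) (ι₀ k (Fin 5) (Fin 11) (gi k n)) (stage_ι₀_mem _ _) (stage_d_ι₀ _ _) (by
    obtain ⟨z, hz⟩ := gi_idem k n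
    exact ⟨z, by rw [hz, map_sub, map_mul]⟩)).choose

lemma EI_g (n : ℕ) : (EI k n).g = ι₀ k (Fin 5) (Fin 11) (gi k n) :=
  (exists_hIdem (XA k) (ι₀ k (Fin 5) (Fin 11) (gi k n)) (stage_ι₀_mem _ _) (stage_d_ι₀ _ _) (by
    obtain ⟨z, hz⟩ := gi_idem k n
    exact ⟨z, by rw [hz, map_sub, map_mul]⟩)).choose_spec

/-- the objects of the extended category -/
noncomputable def objP : Option ℕ → (ModCat (XA k)).Obj
  | none => ob (XA k).self
  | some n => ob (EI k n).T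

/-- the extended category -/
noncomputable abbrev PP : DGCat.{0, 0} k := (ModCat (XA k)).induced (objP k)

/-- the inclusion of the algebra in the extended category -/
noncomputable def toP : DGFun (XA k).toCat (PP k) where
  obj := fun _ => (none : Option ℕ)
  map := rmul (XA k)
  map_chain := fun _ _ => ⟨fun _ _ ha => rmul_mem (X := XA k) (A := FA k (Fin 5 ⊕ Fin 11)) ha,
    fun a => rmul_d (X := XA k) (A := FA k (Fin 5 ⊕ Fin 11)) a⟩
  map_one := fun _ => rmul_one (X := XA k) (A := FA k (Fin 5 ⊕ Fin 11))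
  map_mul := fun a b => rmul_mul (X := XA k) (A := FA k (Fin 5 ⊕ Fin 11)) a b

lemma gn_T {X : DGAlg k (FA k (Fin 5 ⊕ Fin 11))} (E : HIdem X) :
    (ModCat X).Gn (ob X.self) (ob E.T) := by
  refine DGCat.Gn.retract (p := E.u) (q := E.v) ⟨E.u_mem, E.d_u⟩ ⟨E.v_mem, E.d_v⟩
    ⟨-E.w, ?_⟩
  rw [map_neg, E.d_w, neg_sub]

lemma gn_P (x : Option ℕ) : (PP k).Gn (none : Option ℕ) x := by
  rcases x with _ | n
  · exact DGCat.Gn.refl _
  · exact gn_T k (EI k n)

lemma toP_morita : IsMorita (toP k) :=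
  (toP k).isMorita_of_gn () (fun _ _ => isQuasiIso_of_bijective ((toP k).map_chain _ _)
    (rmul_bij (X := XA k) (A := FA k (Fin 5 ⊕ Fin 11))))
    (gn_P k)

/-- the functor represented by the module `V_m` -/
noncomputable def GG (m : ℕ) : DGFun (ModCat (XA k)) (Ch.{0} k) :=
  (ModCat (XA k)).rep (ob (repMod (rel k) (repΦ k m) (repΦ_rel k m)))

/-- its restriction to the extended category -/
noncomputable def GP (m : ℕ) : DGFun (PP k) (Ch.{0} k) :=
  ((ModCat (XA k)).incl (objP k)).comp (GG k m)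

/-- the target categories -/
noncomputable abbrev DD (m : ℕ) : DGCat.{0, 0} k :=
  (Ch.{0} k).induced (fun o : Option (PP k).Obj => o.elim (cob (Kc k)) (GP k m).obj)

/-- the functors to the target categories -/
noncomputable def FF (m : ℕ) : DGFun (PP k) (DD k m) := (GP k m).plus (cob (Kc k))

lemma GG_none (m : ℕ) : (GG k m).obj (ob (XA k).self) =
    cob (Wc (rel k) (repΦ k m) (repΦ_rel k m)) := rfl

/-- `G (g_n)` -/
lemma GG_g (m n : ℕ) : (GG k m).map (rmul (XA k) (EI k n).g) =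
    RF (rel k) (repΦ k m) (repΦ_rel k m) (EI k n).g := rfl

lemma GG_uv (m n : ℕ) : (Ch.{0} k).mul ((GG k m).map (EI k n).u) ((GG k m).map (EI k n).v) =
    (GG k m).map (rmul (XA k) (EI k n).g) := by
  rw [← (GG k m).map_mul, (EI k n).u_v]

lemma GG_vu (m n : ℕ) : (Ch.{0} k).Ex ((Ch.{0} k).one ((GG k m).obj (ob (EI k n).T)) -
    (Ch.{0} k).mul ((GG k m).map (EI k n).v) ((GG k m).map (EI k n).u)) := by
  have h : (ModCat (XA k)).Ex ((ModCat (XA k)).one (ob (EI k n).T) -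
      (ModCat (XA k)).mul (EI k n).v (EI k n).u) :=
    ⟨-(EI k n).w, by rw [map_neg, (EI k n).d_w, neg_sub]⟩
  have := (GG k m).ex h
  rwa [map_sub, (GG k m).map_one, (GG k m).map_mul] at this

lemma GG_u_z0 (m n : ℕ) : (Ch.{0} k).Z0 ((GG k m).map (EI k n).u) :=
  (GG k m).z0 ⟨(EI k n).u_mem, (EI k n).d_u⟩

lemma GG_v_z0 (m n : ℕ) : (Ch.{0} k).Z0 ((GG k m).map (EI k n).v) :=
  (GG k m).z0 ⟨(EI k n).v_mem, (EI k n).d_v⟩

lemma ext0_g (m n : ℕ) : ext0 (repΦ k m) (EI k n).g = repΦ k m (gi k n) := by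
  rw [EI_g, ext0_ι₀]

/-- the off-diagonal values are contractible -/
lemma off (m n : ℕ) (h : m ≠ n) : (Ch.{0} k).Ex ((Ch.{0} k).one ((GG k m).obj (ob (EI k n).T))) := by
  refine DGCat.ex_one_of_zero (GG_u_z0 k m n) (GG_v_z0 k m n) (GG_vu k m n) ?_
  rw [GG_uv, GG_g]
  apply RF_zero
  rw [ext0_g, repΦ_gi_ne k m (Ne.symm h)]

/-- the diagonal values are homotopy equivalent to `k` -/
lemma diag_hEq (n : ℕ) : ∃ (p : (Ch.{0} k).Hom ((GG k n).obj (ob (EI k n).T)) (cob (Kc k)))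
    (q : (Ch.{0} k).Hom (cob (Kc k)) ((GG k n).obj (ob (EI k n).T))), DGCat.HEq' p q := by
  refine ⟨_, _, DGCat.hEq_of_split (GG_u_z0 k n n) (GG_v_z0 k n n) (GG_vu k n n)
    (c := cob (Kc k))
    (e := qF (rel k) (repΦ k n) (repΦ_rel k n) (Pi.single (top n) (1 : k)))
    (e' := pF (rel k) (repΦ k n) (repΦ_rel k n) (LinearMap.proj (top n)))
    (qF_z0 _ _ _ _) (pF_z0 _ _ _ _) ?_ ?_⟩
  · refine (pF_qF _ _ _ _ _).trans ?_
    simp
  · rw [GG_uv, GG_g]
    apply RF_eq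
    intro y
    rw [ext0_g, repΦ_gi_eq]

lemma K_gn_GG (m : ℕ) (x : Option ℕ) : (Ch.{0} k).Gn (cob (Kc k)) ((GG k m).obj (objP k x)) := by
  have h1 : (Ch.{0} k).Gn (cob (Kc k)) ((GG k m).obj (ob (XA k).self)) :=
    gn_Wc' (rel k) (repΦ k m) (repΦ_rel k m)
  refine h1.trans ?_
  rcases x with _ | n
  · exact DGCat.Gn.refl _
  · exact (GG k m).gn (gn_T k (EI k n))

lemma hd (m : ℕ) : IsMorita ((DD k m).pt ((FF k m).obj (some m))) := by
  obtain ⟨p, q, hpq⟩ := diag_hEq k m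
  have hq : (Ch.{0} k).QE ((GG k m).obj (ob (EI k m).T)) := DGCat.QE.of_hEq hpq (K_qe k)
  have hk : (Ch.{0} k).Gn ((GG k m).obj (ob (EI k m).T)) (cob (Kc k)) :=
    DGCat.Gn.retract hpq.hq hpq.hp hpq.pq
  refine DGCat.pt_isMorita (A := DD k m) (b := (FF k m).obj (some m)) hq ?_
  rintro (_ | x)
  · exact hk
  · exact hk.trans (K_gn_GG k m x)

lemma ho (m n : ℕ) (h : m ≠ n) : (DD k m).Ex ((DD k m).one ((FF k m).obj (some n))) :=
  off k m n h

/-- the dg category is smooth -/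
lemma XA_smooth : Pool.Agent.TH137.NC.IsSmooth (Pool.Agent.TH137.cA (XA k).toCat) :=
  Pool.Agent.TH137.cA_smooth (stage_smooth (rel k))

open Pool.Agent.TH137 in
/-- the dg category is not Schur-finite for any Morita invariant -/
theorem nnot_schur (S : ObjectProperty (NC.DGCat.{0, 0} k))
    (hM : ∀ (A B : NC.DGCat.{0, 0} k) (F : A ⟶ B), NC.IsMorita F → (S A ↔ S B))
    (hA : S (cA (XA k).toCat)) (hk : S (NC.DGCat.base k)) (h0 : S (NC.DGCat.empty k))
    {C : Type u} [Category.{v} C] [MonoidalCategory C] [SymmetricCategory C] [Preadditive C]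
    [Linear ℚ C] [MonoidalPreadditive C] (U : S.FullSubcategory ⥤ C)
    (hU : ∀ (A B : S.FullSubcategory) (F : A ⟶ B), NC.IsMorita F.hom → IsIso (U.map F))
    (hZ : IsZero (U.obj ⟨NC.DGCat.empty k, h0⟩))
    (h1 : Nonempty (U.obj ⟨NC.DGCat.base k, hk⟩ ≅ 𝟙_ C)) (hne : ¬ IsZero (𝟙_ C)) :
    ¬ DG.IsSchurFinite (U.obj ⟨cA (XA k).toCat, hA⟩) := by
  have hP : S (cA (PP k)) := (hM _ _ (cF (toP k) : cA (XA k).toCat ⟶ cA (PP k))
    (cF_isMorita (toP_morita k))).1 hA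
  have hI := hU ⟨cA (XA k).toCat, hA⟩ ⟨cA (PP k), hP⟩
    (ObjectProperty.homMk (cF (toP k) : cA (XA k).toCat ⟶ cA (PP k)))
    (cF_isMorita (toP_morita k))
  obtain ⟨i, p, hip, hz⟩ := nkey S hM hk h0 U hU hZ (PP k) hP (fun n => (some n : Option ℕ))
    (DD k) (FF k) (hd k) (ho k)
  obtain ⟨e⟩ := h1
  let f := @asIso _ _ _ _ _ hI
  apply DG.not_isSchurFinite
  · intro n
    refine ⟨fun j => e.inv ≫ i j ≫ f.inv, fun j => f.hom ≫ p j ≫ e.hom, ?_, ?_⟩
    · intro j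
      simp only [Category.assoc, Iso.inv_hom_id_assoc]
      rw [← Category.assoc (i j), hip, Category.id_comp, e.inv_hom_id]
    · intro a b hab
      simp only [Category.assoc, Iso.inv_hom_id_assoc]
      rw [← Category.assoc (i a), hz _ _ (fun h => hab (Fin.ext h.symm)), zero_comp, comp_zero]
  · exact hne

end

end Pool.Agent.Y112.NF
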