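import Mathlib.Tactic.NoncommRing
import Mathlib.Algebra.BigOperators.Group.Finset.Basic

/-!
# A finitely presented ring with many idempotents

There are eleven relations between five elements `S, T, a, b, p` of a ring which force all the
elements `p sⁿ π tⁿ` (`s = bS - Sb`, `t = Ta - aT`, `π = 1 - ab - st`) to be idempotent.  No
integer has to be invertible, so that this can be used over every field.
-/

set_option autoImplicit false

namespace Pool.Agent.Y112.NF

/-- the idempotency of `p sⁿ π tⁿ`, in every ring -/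
theorem idem_ring {H : Type} [Ring H] {S T a b p s t π : H}
    (hs : s = b * S - S * b) (ht : t = T * a - a * T) (hπ : π = 1 - a * b - s * t)
    (h0 : p * p = p) (h1 : p * a = a * p) (h2 : p * b = b * p) (h3 : b * T = T * b)
    (h4 : a * S = S * a) (h5 : a * π = 0) (h6 : b * π = 0) (h7 : b * s = 0)
    (h8 : T = T * (a * b)) (h9 : a * T = a * (T * (b * a))) (h10 : π * b = 0) (n : ℕ) :
    (p * s ^ n * π * t ^ n) * (p * s ^ n * π * t ^ n) = p * s ^ n * π * t ^ n := by
  have c2 : Commute p b := h2
  have c3 : Commute b T := h3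
  have c4 : Commute a S := h4
  -- `b sⁿ π = 0`
  have bs : ∀ n : ℕ, b * (s ^ n * π) = 0 := by
    intro n
    cases n with
    | zero => rw [pow_zero, one_mul, h6]
    | succ n => rw [pow_succ', ← mul_assoc, ← mul_assoc, h7, zero_mul, zero_mul]
  have h7' : b * (b * S) = b * (S * b) := by
    rw [hs, mul_sub] at h7
    exact sub_eq_zero.1 h7
  -- `bⁿ⁺¹ S = b S bⁿ`
  have bS : ∀ n : ℕ, b ^ (n + 1) * S = b * (S * b ^ n) := by
    intro n
    induction n with
    | zero => rw [zero_add, pow_one, pow_zero, mul_one]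
    | succ n ih =>
      rw [pow_succ', mul_assoc, ih, ← mul_assoc b S, ← mul_assoc b (b * S), h7', pow_succ']
      simp only [mul_assoc]
  -- `bⁿ Sⁿ π = sⁿ π`
  have key1 : ∀ n : ℕ, b ^ n * (S ^ n * π) = s ^ n * π := by
    intro n
    induction n with
    | zero => rw [pow_zero, pow_zero, pow_zero, one_mul]
    | succ n ih =>
      have e1 : b ^ (n + 1) * (S ^ (n + 1) * π) = b * (S * (s ^ n * π)) := by
        rw [pow_succ' S, mul_assoc S, ← mul_assoc (b ^ (n + 1)), bS, mul_assoc, mul_assoc, ih]
      have e2 : s ^ (n + 1) * π = b * (S * (s ^ n * π)) := by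
        rw [pow_succ', mul_assoc]
        nth_rw 1 [hs]
        rw [sub_mul, mul_assoc, mul_assoc, bs, mul_zero, sub_zero]
      rw [e1, e2]
  obtain ⟨β, hβ⟩ : ∃ β, β = p * (S ^ n * π) := ⟨_, rfl⟩
  obtain ⟨α, hα⟩ : ∃ α, α = p * (s ^ n * π) := ⟨_, rfl⟩
  have hαβ : α = b ^ n * β := by
    rw [hα, hβ, ← key1 n, ← mul_assoc, (c2.pow_right n).eq, mul_assoc]
  have aβ : a * β = 0 := by
    rw [hβ, ← mul_assoc, ← h1, mul_assoc, ← mul_assoc a, (c4.pow_right n).eq, mul_assoc, h5,
      mul_zero, mul_zero]
  have bα : b * α = 0 := by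
    rw [hα, ← mul_assoc, ← h2, mul_assoc, bs, mul_zero]
  -- elements killed by `b`
  have kT : ∀ x : H, b * x = 0 → T * x = 0 := by
    intro x hx
    rw [h8, mul_assoc, mul_assoc, hx, mul_zero, mul_zero]
  have kd : ∀ x : H, b * x = 0 → x = π * x + s * (t * x) := by
    intro x hx
    rw [hπ, sub_mul, sub_mul, one_mul, mul_assoc, hx, mul_zero, sub_zero, mul_assoc,
      sub_add_cancel]
  -- `tⁱ α`
  have main : ∀ i : ℕ, i ≤ n → t ^ i * α = b ^ (n - i) * (T ^ i * β) ∧ b * (t ^ i * α) = 0 := by
    intro i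
    induction i with
    | zero =>
      intro _
      refine ⟨?_, ?_⟩
      · rw [pow_zero, pow_zero, one_mul, one_mul, Nat.sub_zero, hαβ]
      · rw [pow_zero, one_mul, bα]
    | succ i ih =>
      intro hi
      obtain ⟨e1, e2⟩ := ih (by omega)
      have e3 := kT _ e2
      have e4 : t ^ (i + 1) * α = T * (a * (t ^ i * α)) := by
        rw [pow_succ', mul_assoc]
        nth_rw 1 [ht]
        rw [sub_mul, mul_assoc, mul_assoc, e3, mul_zero, sub_zero]
      have e5 : t ^ (i + 1) * α = b ^ (n - (i + 1)) * (T ^ (i + 1) * β) := by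
        rw [e4, e1, show n - i = (n - (i + 1)) + 1 by omega, pow_succ' b]
        calc T * (a * (b * b ^ (n - (i + 1)) * (T ^ i * β)))
            = T * (a * b) * (b ^ (n - (i + 1)) * (T ^ i * β)) := by simp only [mul_assoc]
          _ = T * (b ^ (n - (i + 1)) * (T ^ i * β)) := by rw [← h8]
          _ = b ^ (n - (i + 1)) * (T ^ (i + 1) * β) := by
            rw [← mul_assoc, ← (c3.pow_left (n - (i + 1))).eq, pow_succ']
            simp only [mul_assoc]
      refine ⟨e5, ?_⟩
      rw [e5, ← mul_assoc, ← pow_succ', show n - (i + 1) + 1 = n - i by omega, pow_succ',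
        mul_assoc T, ← mul_assoc (b ^ (n - i)), (c3.pow_left (n - i)).eq, mul_assoc, ← e1, e3]
  have vanish : ∀ i : ℕ, i < n → π * (t ^ i * α) = 0 := by
    intro i hi
    rw [(main i hi.le).1, show n - i = (n - i - 1) + 1 by omega, pow_succ', mul_assoc,
      ← mul_assoc, h10, zero_mul]
  have aT : ∀ i : ℕ, a * (T ^ i * β) = 0 := by
    intro i
    induction i with
    | zero => rw [pow_zero, one_mul, aβ]
    | succ i ih =>
      have : a * (T ^ (i + 1) * β) = a * T * (T ^ i * β) := by
        rw [pow_succ']; simp only [mul_assoc]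
      rw [this, h9]
      have : a * (T * (b * a)) * (T ^ i * β) = a * (T * (b * (a * (T ^ i * β)))) := by
        simp only [mul_assoc]
      rw [this, ih, mul_zero, mul_zero, mul_zero]
  have top : t * (t ^ n * α) = 0 := by
    have e1 := (main n le_rfl).1
    rw [Nat.sub_self, pow_zero, one_mul] at e1
    have e3 := kT _ (main n le_rfl).2
    nth_rw 1 [ht]
    rw [sub_mul, mul_assoc, mul_assoc, e3, mul_zero, sub_zero, e1, aT, mul_zero]
  have tele : ∀ i : ℕ, i ≤ n → α = s ^ i * (t ^ i * α) := by
    intro i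
    induction i with
    | zero => intro _; rw [pow_zero, pow_zero, one_mul, one_mul]
    | succ i ih =>
      intro hi
      have e := kd _ (main i (by omega)).2
      rw [vanish i (by omega), zero_add] at e
      have e' := ih (by omega)
      rw [e] at e'
      rw [pow_succ, pow_succ', mul_assoc, mul_assoc t]
      exact e'
  have fin : α = s ^ n * (π * (t ^ n * α)) := by
    have e := kd _ (main n le_rfl).2
    rw [top, mul_zero, add_zero] at e
    rw [← e]
    exact tele n le_rfl
  calc (p * s ^ n * π * t ^ n) * (p * s ^ n * π * t ^ n)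
      = p * (s ^ n * (π * (t ^ n * α))) * t ^ n := by rw [hα]; simp only [mul_assoc]
    _ = p * α * t ^ n := by rw [← fin]
    _ = p * s ^ n * π * t ^ n := by
      rw [hα]
      simp only [← mul_assoc, h0]

end Pool.Agent.Y112.NF
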